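import Pool.Agent.TH771.GC.Chain

/-!
# The bounded nondeterminism hierarchy after few changes of a random oracle

`InGuess (fun n => n) g A` is the class `NP_g` relative to the oracle `A` (at most `g n` guessed
bits, polynomial time), `InGuessAdv (fun n => n) g A` is the same with polynomial advice, and
`NiceT (fun n => n) g` says that `g` is computable in polynomial time (in unary). `Close G O A` says
that, for all large `n`, the oracles `O` and `A` differ on at most `G n` strings of length at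
most `n`.

* If `G n ≤ 2 ^ (n ^ ε)` for all large `n`, for every `ε > 0`, then for almost every oracle `O`,
  relative to every such `A`: `NP_g ⊆ NP_h` if and only if `g ≤ h + O(log n)`, for all `g` and `h`
  with `g` computable in polynomial time; otherwise `NP_g` is not in `NP_h` with polynomial advice.
* If this holds for infinitely many `n` only, then still `NP_g` is not in `NP_h` with polynomial
  advice whenever `g - h` grows faster than every multiple of `log n`. So all the inclusions of the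
  chain `NP_(d log n)`, `NP_n`, `NP_(n^2)`, ... are strict.
* Otherwise every oracle `O` whatsoever has an `A` relative to which the whole chain
  collapses to `P`.
-/

set_option autoImplicit false

namespace Pool.Agent.Results.MP_cd574d_lc.ChangedStrings

open Filter MeasureTheory Pool.Agent.NPC
open Pool.Agent.H628R3.RO (randomOracle)
open Pool.Agent.H620R2.Gauge Pool.Agent.W900.CH Pool.Agent.TH93.GL Pool.Agent.TH771.GC

theorem result (G : ℕ → ℝ) :
    ((∀ ε : ℝ, 0 < ε → ∀ᶠ n : ℕ in atTop, G n ≤ 2 ^ (n : ℝ) ^ ε) →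
      ∀ᵐ O ∂randomOracle, ∀ A : Oracle, Close G O A →
        ∀ g h : ℕ → ℕ, NiceT (fun n => n) g → List.TFAE [
          ∀ L, InGuess (fun n => n) g A L → InGuess (fun n => n) h A L,
          ∀ L, InGuess (fun n => n) g A L → InGuessAdv (fun n => n) h A L,
          ∃ c, ∀ n, g n ≤ h n + c * (Nat.log 2 n + 1)]) ∧
    ((∀ ε : ℝ, 0 < ε → ∃ᶠ n : ℕ in atTop, G n ≤ 2 ^ (n : ℝ) ^ ε) →
      ∀ᵐ O ∂randomOracle, ∀ A : Oracle, Close G O A →
        (∀ g h : ℕ → ℕ, NiceT (fun n => n) g →
          (∀ c : ℕ, ∀ᶠ n : ℕ in atTop, h n + c * (Nat.log 2 n + 1) < g n) →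
          ∃ L, InGuess (fun n => n) g A L ∧ ¬ InGuessAdv (fun n => n) h A L) ∧
        (∀ d : ℕ, ∃ L, InGuess (fun n => n) (fun n => n) A L ∧
          ¬ InGuessAdv (fun n => n) (fun n => d * (Nat.log 2 n + 1)) A L) ∧
        ∀ k d : ℕ, 1 ≤ k → ∃ L, InGuess (fun n => n) (fun n => n ^ (k + 1)) A L ∧
          ¬ InGuessAdv (fun n => n) (fun n => d * n ^ k) A L) ∧
    ((¬ ∀ ε : ℝ, 0 < ε → ∃ᶠ n : ℕ in atTop, G n ≤ 2 ^ (n : ℝ) ^ ε) →
      ∀ O : Oracle, ∃ A : Oracle, Close G O A ∧ (∀ L, IsNP A L → IsP A L) ∧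
        ∀ g h : ℕ → ℕ, NiceT (fun n => n) g →
          ∀ L, InGuess (fun n => n) g A L → IsP A L ∧ InGuess (fun n => n) h A L) := by
  refine ⟨fun hG => law_close hG, fun hG => ?_, fun hG O => ?_⟩
  · filter_upwards [ae_far_P (fun f hf => null_all hf) hG] with O hO A hA
    have key : ∀ g h : ℕ → ℕ, NiceT (fun n => n) g →
          (∀ c : ℕ, ∀ᶠ n : ℕ in atTop, h n + c * (Nat.log 2 n + 1) < g n) →
          ∃ L, InGuess (fun n => n) g A L ∧ ¬ InGuessAdv (fun n => n) h A L :=
      fun g h hg hgh => ⟨_, hitG_guess hg A, fun h1 => hO A hA ⟨g, h, hg, hgh, h1⟩⟩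
    exact ⟨key, fun d => key _ _ niceT_id (gap_log d), fun k d hk =>
      key _ _ (niceT_pow (k + 1)) (fun c => gap_pow k d c hk)⟩
  · obtain ⟨A, h1, h2⟩ := exists_close_PSPACE hG O
    have h3 : ∀ L, IsPSPACE A L → IsP A L := fun L hL => isP_of_reduces (h2 L hL)
    refine ⟨A, h1, fun L hL => h3 L hL.isPSPACE, fun g h hg L hL => ?_⟩
    have h4 : IsP A L := h3 L (hL.np hg).isPSPACE
    exact ⟨h4, guess_of_p h4⟩

end Pool.Agent.Results.MP_cd574d_lc.ChangedStrings
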