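import Pool.Agent.TH93.GL.Np

/-!
# The oracles relative to which a level of the bounded nondeterminism hierarchy collapses

`InGuess (fun n => n) g A` is the class `NP_g` relative to the oracle `A`, and `InGuessAdv` is the
same with polynomial advice. Let `g` be computable in polynomial time (in unary) and let `h` be such
that `g - h` is not `O(log n)`, in the strong sense that for every `c`, `g(n) > h(n) + c log n` for
all large `n`; for instance `g = n ^ (k + 1)` and `h = n ^ k`, or `g = n` and `h = log n`.

The first part says that `NP_g` is contained in `NP_h` relative to all oracles with `PSPACE = P`.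
The second part says that every set `O` of oracles between the set of those with `PSPACE = P` and
the set of those relative to which `NP_g` is contained in `NP_h` with polynomial advice is a null set
for the gauge `f` if and only if for every `ε > 0` there are infinitely many `N` with
`f N ≤ 2 ^ (log N) ^ ε`.
-/

set_option autoImplicit false

namespace Pool.Agent.Results.MP_cd574d_lc.GaugeThreshold

open Pool.Agent.NPC Pool.Agent.H620R2.Gauge Pool.Agent.TH678.ETH Pool.Agent.TH93.GL Filter

theorem result (f : ℕ → ℝ) (g h : ℕ → ℕ) (hg : NiceT (fun n => n) g)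
    (hgh : ∀ c : ℕ, ∀ᶠ n : ℕ in atTop, h n + c * (Nat.log 2 n + 1) < g n) :
    (∀ A : Oracle, (∀ L, IsPSPACE A L → IsP A L) →
      ∀ L, InGuess (fun n => n) g A L → InGuess (fun n => n) h A L) ∧
    ∀ O : Set Oracle, {A : Oracle | ∀ L, IsPSPACE A L → IsP A L} ⊆ O →
      O ⊆ {A : Oracle | ∀ L, InGuess (fun n => n) g A L → InGuessAdv (fun n => n) h A L} →
      (Null f O ↔
        ∀ ε : ℝ, 0 < ε → ∃ᶠ N : ℕ in atTop, f N ≤ 2 ^ (Real.logb 2 N) ^ ε) :=
  ⟨fun _ hA _ hL => guess_of_pspace hg hA hL, fun O h1 h2 => key hg hgh O h1 h2⟩

end Pool.Agent.Results.MP_cd574d_lc.GaugeThreshold
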