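import Pool.Agent.TH682.GD.Thm

/-!
# Bounded nondeterminism, and hard sets decided by permutation groups

Polynomial time is Mathlib's `Turing.TM2ComputableInPolyTime`, for functions on bit strings.

Theorem. Let `g` be nondecreasing and computable in polynomial time (in unary). Then `NP_g ⊆ P` if
and only if some set which is hard for `NP_g` under many-one reductions (or whose complement is) is a
difference of nonuniform permutation groups, of some constant depth `k`: for every input length there
is an arbitrary subgroup `H` of a symmetric group, and `x` is in the set if and only if the number of
leading permutations in `H`, in a list of `k` permutations computed from `x`, `1 ^ n` and `O(log n)`
bits of advice in polynomial time, is odd. The case `k = 1` is a many-one reduction to the membership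
problem of the groups `H`.

Sets of this kind are the sets in the Boolean (difference) hierarchy over the class of the sets with
a many-one (or conjunctive) reduction to the membership problems of nonuniform permutation groups,
since subgroups of products are closed under intersections. Every sparse set `S` is in this class:
for the columns `c (x)` of the parity check matrix of a BCH code of distance at least `|S| + 2` (`S`
restricted to the strings of length at most `n`; the columns are computed from `x` and `1 ^ n`), the
set `S` consists of the `x` with `c (x)` in the span of the `c (s)`, `s ∈ S`; the bounded truth-table
reductions to sparse sets are differences of such linear spaces (a disjunction of
memberships in linear spaces is one membership of a tensor product). So the theorem contains those of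
Mahaney (1982) and of Ogiwara and Watanabe (1991), and proves them for all levels of bounded
nondeterminism, among them the classes `NP_g` with `g` polylogarithmic (Kintala and Fischer), where
`NP_g` is not known to contain `NP`-complete sets.

Proof. The left set of a set in `NP_g` (the pairs of an input and a prefix `y` such that some
certificate is at least `y`) is in `NP_g`. In the tree of prefixes of certificates of a fixed length,
the nodes of one level are kept in a sorted list, and are labelled by the left set with one, up to
the prefix of the maximal certificate, and then with zero. If the list is longer than
`2 (N ^ 2 + 1) ^ k`, a node that is not a prefix of the maximal certificate is found as follows. A
permutation is sifted through a table that has at most one permutation for each pair (first point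
which is not fixed, its image), and it is inserted if it does not reach the identity; there are at
most `N ^ 2` insertions. So for the first permutations there is an interval of nodes, of length a
fraction `1 / (N ^ 2 + 1)` of the list, without insertions: if the last node with label one is in the
interval, then all first permutations of the interval are in `H`, because those of the nodes to the
left are in `H` (they have label one). For the second permutations take an interval of this interval
without insertions from the right (the nodes to the right have label zero), and so on. For the last
interval all permutations are in `H`, so all nodes in it have the same label, hence its first node
is not the last node with label one, and can be removed.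
-/

set_option autoImplicit false

namespace Pool.Agent.Results.MP_cd574d_lc.GroupDifferences

open Pool.Agent.NPC Pool.Agent.TH682.GD

/-- **Hard sets decided by permutation groups.** For nondecreasing `g`, computable in polynomial time
in unary, the following are equivalent: `NP_g ⊆ P`; some set `A` such that `A` or its complement is
`NP_g`-hard is a difference of `k` nonuniform permutation groups for some `k`; all sets in `NP_g` are;
all sets in `NP_g` are with `k = 1`. In particular `P = NP` if and only if some set which is `NP`-hard
or `coNP`-hard is a difference of `k` nonuniform permutation groups for some `k`. -/
theorem result :
    (∀ g : ℕ → ℕ, Monotone g → PolyTime (fun x => List.replicate (g x.length) true) → List.TFAE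
      [∀ L : Set (List Bool), InNPg g L → InP L,
        ∃ (A : Set (List Bool)) (k : ℕ), (NPgHard g A ∨ NPgHard g Aᶜ) ∧ GroupDiff k A,
        ∀ A : Set (List Bool), InNPg g A → ∃ k, GroupDiff k A,
        ∀ A : Set (List Bool), InNPg g A → GroupDiff 1 A]) ∧
    ((∀ L : Set (List Bool), InNP L → InP L) ↔
      ∃ (A : Set (List Bool)) (k : ℕ), (NPHard A ∨ NPHard Aᶜ) ∧ GroupDiff k A) :=
  ⟨group_tfae, group_np⟩

end Pool.Agent.Results.MP_cd574d_lc.GroupDifferences
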