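import Pool.Agent.TH93.GL.Main

/-!
# How many guessed bits can be saved relative to a random oracle

The number `τ n` is `n` here. `InGuess τ g A` is the class `NP_g` relative to the oracle `A`: the
verifier gets a string of at most `g n` guessed bits and works in polynomial time. `InGuessAdv` is
the same with polynomial advice, and `InTimeAdv τ h` is deterministic time with `2 ^ h(n) p(n)`
rounds and polynomial advice. `NiceT τ g` says that `g` is computable in polynomial time (in unary).

Relative to almost every oracle the following holds for all `g` and `h`, where `g` is computable in
polynomial time: `NP_g` is contained in `NP_h` if and only if `g ≤ h + O(log n)`; and otherwise some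
language in `NP_g` can be decided neither with `h` guessed bits and polynomial advice nor
deterministically in time `2 ^ h` times a polynomial with polynomial advice.
-/

set_option autoImplicit false

namespace Pool.Agent.Results.MP_cd574d_lc.GuessLaw

open Pool.Agent.NPC Pool.Agent.H620R2.Gauge Pool.Agent.TH678.ETH Pool.Agent.TH93.GL

theorem result : ∀ᵐ A ∂ranO, ∀ g h : ℕ → ℕ, NiceT (fun n => n) g → List.TFAE [
      ∀ L, InGuess (fun n => n) g A L → InGuess (fun n => n) h A L,
      ∀ L, InGuess (fun n => n) g A L →
        InGuessAdv (fun n => n) h A L ∨ InTimeAdv (fun n => n) h A L,
      ∃ c, ∀ n, g n ≤ h n + c * (Nat.log 2 n + 1)] :=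
  law_poly

end Pool.Agent.Results.MP_cd574d_lc.GuessLaw
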